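import Pool.Agent.WR3.StmtsA

/-!
WR3, row CVG (convergence of the counting functions), by helper5.
-/

namespace Pool.Agent.WR3.H5

open Pool.Agent.WR3
open scoped BigOperators ENNReal Topology
open Filter

/-- row CVG -/
theorem cvg (hMin : MinStmt) (hSpd : SpdStmt) : CvgStmt := by
  intro F hmono hpos hC hD
  obtain ⟨C, hC⟩ := hC
  obtain ⟨D, x0, hD⟩ := hD
  set f : ℝ → ℝ := fun v => F (Real.exp v) / Real.exp v with hf
  have hf0 : ∀ v, 0 ≤ f v := fun v => div_nonneg (hpos _) (Real.exp_pos v).le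
  have hfC : ∀ v, 0 ≤ v → f v ≤ C := by
    intro v hv
    have h1 := hC (Real.exp v) (Real.one_le_exp hv)
    show F (Real.exp v) / Real.exp v ≤ C
    rw [div_le_iff₀ (Real.exp_pos v)]
    exact h1
  have hfmono : ∀ v w, v ≤ w → Real.exp (v - w) * f v ≤ f w := by
    intro v w hvw
    have h1 := hmono (Real.exp v) (Real.exp w) (Real.exp_pos v) (Real.exp_le_exp.mpr hvw)
    have h2 : Real.exp (v - w) * f v = F (Real.exp v) / Real.exp w := by
      show Real.exp (v - w) * (F (Real.exp v) / Real.exp v) = F (Real.exp v) / Real.exp w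
      rw [Real.exp_sub]
      have := (Real.exp_pos v).ne'
      have := (Real.exp_pos w).ne'
      field_simp
    rw [h2]
    show F (Real.exp v) / Real.exp w ≤ F (Real.exp w) / Real.exp w
    exact div_le_div_of_nonneg_right h1 (Real.exp_pos w).le
  have hharm : ∃ V0 : ℝ, 2 ≤ V0 ∧ ∀ v, V0 ≤ v →
      |f v - (f (v - Real.log 2) + f (v + Real.log (3 / 2))) / 2| ≤ |D| / v ^ 2 := by
    refine ⟨max 2 (Real.log (max x0 1)), le_max_left _ _, ?_⟩
    intro v hv
    have hv2 : 2 ≤ v := le_trans (le_max_left _ _) hv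
    have hx : x0 ≤ Real.exp v := by
      have h1 : Real.log (max x0 1) ≤ v := le_trans (le_max_right _ _) hv
      have h2 : max x0 1 ≤ Real.exp v := by
        rw [← Real.log_le_iff_le_exp (lt_of_lt_of_le one_pos (le_max_right _ _))]
        exact h1
      exact le_trans (le_max_left _ _) h2
    have h := hD _ hx
    rw [Real.log_exp] at h
    have he := Real.exp_pos v
    have e1 : Real.exp (v - Real.log 2) = Real.exp v / 2 := by
      rw [Real.exp_sub, Real.exp_log (by norm_num)]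
    have e2 : Real.exp (v + Real.log (3 / 2)) = 3 * Real.exp v / 2 := by
      rw [Real.exp_add, Real.exp_log (by norm_num)]; ring
    have e3 : f v - (f (v - Real.log 2) + f (v + Real.log (3 / 2))) / 2
        = (F (Real.exp v) - F (Real.exp v / 2) - F (3 * Real.exp v / 2) / 3) / Real.exp v := by
      show F (Real.exp v) / Real.exp v - (F (Real.exp (v - Real.log 2)) / Real.exp (v - Real.log 2)
        + F (Real.exp (v + Real.log (3 / 2))) / Real.exp (v + Real.log (3 / 2))) / 2 = _
      rw [e1, e2]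
      field_simp
      ring
    rw [e3, abs_div, abs_of_pos he, div_le_iff₀ he]
    calc |F (Real.exp v) - F (Real.exp v / 2) - F (3 * Real.exp v / 2) / 3|
        ≤ D * Real.exp v / v ^ 2 := h
      _ ≤ |D| * Real.exp v / v ^ 2 := by
        have := le_abs_self D
        gcongr
      _ = |D| / v ^ 2 * Real.exp v := by ring
  obtain ⟨V0, hV0, hharm⟩ := hharm
  -- the limsup
  set S : Set ℝ := {c | 0 ≤ c ∧ ∃ V, ∀ v, V ≤ v → f v ≤ c} with hS
  have hSne : S.Nonempty :=
    ⟨|C|, abs_nonneg _, 0, fun v hv => le_trans (hfC v hv) (le_abs_self C)⟩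
  have hSbd : BddBelow S := ⟨0, fun c hc => hc.1⟩
  set M : ℝ := sInf S with hM
  have hM0 : 0 ≤ M := le_csInf hSne (fun c hc => hc.1)
  have hup : ∀ ε > (0 : ℝ), ∃ V : ℝ, ∀ v ≥ V, f v ≤ M + ε := by
    intro ε hε
    obtain ⟨c, hc, hlt⟩ := exists_lt_of_csInf_lt hSne (show sInf S < M + ε by rw [← hM]; linarith)
    obtain ⟨_, V, hV⟩ := hc
    exact ⟨V, fun v hv => le_trans (hV v hv) hlt.le⟩
  have hlow : ∀ ε > (0 : ℝ), ∀ V : ℝ, ∃ v ≥ V, M - ε ≤ f v := by
    intro ε hε V
    by_contra hcon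
    push Not at hcon
    have h1 : 0 ≤ M - ε := le_trans (hf0 V) (hcon V le_rfl).le
    have h2 : M - ε ∈ S := ⟨h1, V, fun v hv => (hcon v hv).le⟩
    have h3 := csInf_le hSbd h2
    rw [← hM] at h3
    linarith
  have hlim0 : ∀ ε > (0 : ℝ), ∃ V : ℝ, ∀ v ≥ V,
      |f v - (f (v - Real.log 2) + f (v + Real.log (3 / 2))) / 2| ≤ ε := by
    intro ε hε
    refine ⟨max V0 (|D| / ε), fun v hv => ?_⟩
    have hv0 : V0 ≤ v := le_trans (le_max_left _ _) hv
    have hv1 : |D| / ε ≤ v := le_trans (le_max_right _ _) hv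
    have hv2 : 2 ≤ v := le_trans hV0 hv0
    refine le_trans (hharm v hv0) ?_
    rw [div_le_iff₀ (by positivity)]
    rw [div_le_iff₀ hε] at hv1
    nlinarith [mul_nonneg hε.le (show (0 : ℝ) ≤ v by linarith)]
  have hspread := hSpd f M hM0 hf0 hfmono hup hlow hlim0
  obtain ⟨κ, hκ, hmin⟩ := hMin 0 |D| (abs_nonneg D)
  have hconv : Tendsto f atTop (𝓝 M) := by
    rw [Metric.tendsto_atTop]
    intro ε hε
    obtain ⟨V1, hV1⟩ := hup (ε / 2) (by linarith)
    obtain ⟨v0, hv0, hv0'⟩ := hspread (ε / 4) (by linarith) (max V0 (4 * κ / ε))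
    have hv00 : V0 ≤ v0 := le_trans (le_max_left _ _) hv0
    have hv01 : 4 * κ / ε ≤ v0 := le_trans (le_max_right _ _) hv0
    have hv02 : 2 ≤ v0 := le_trans hV0 hv00
    have hres := hmin f v0 (M - ε / 4) 0 hv02 (fun v _ => by simpa using hf0 v)
      (fun v hv => by
        have h1 := hharm v (le_trans hv00 hv)
        have h2 := (abs_le.mp h1).1
        have h3 : v ^ (0 + 2) = v ^ 2 := by norm_num
        rw [h3]
        linarith) hv0'
    refine ⟨max v0 V1, fun v hv => ?_⟩
    have ha : v0 ≤ v := le_trans (le_max_left _ _) hv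
    have hb : V1 ≤ v := le_trans (le_max_right _ _) hv
    have h1 := hres v ha
    have h2 := hV1 v hb
    have h3 : κ / v0 ^ (0 + 1) ≤ ε / 4 := by
      have h4 : v0 ^ (0 + 1) = v0 := by norm_num
      rw [h4, div_le_iff₀ (by linarith)]
      rw [div_le_iff₀ hε] at hv01
      linarith
    rw [Real.dist_eq, abs_lt]
    constructor <;> linarith
  refine ⟨M, hM0, ?_⟩
  have h1 : Tendsto (fun x : ℝ => f (Real.log x)) atTop (𝓝 M) :=
    hconv.comp Real.tendsto_log_atTop
  refine h1.congr' ?_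
  filter_upwards [eventually_gt_atTop (0 : ℝ)] with x hx
  show F (Real.exp (Real.log x)) / Real.exp (Real.log x) = F x / x
  rw [Real.exp_log hx]

end Pool.Agent.WR3.H5
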